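import Mathlib

set_option autoImplicit false

namespace Pool.Agent.Results.MP_f2857b_co.Spread

open Finset

/-- `f` embeds `G` into `K_n` with all edges of colour `b` (`true` is red, `false` is blue). -/
def Copy {k n : ℕ} (G : SimpleGraph (Fin k)) (c : Sym2 (Fin n) → Bool) (b : Bool)
    (f : Fin k ↪ Fin n) : Prop :=
  ∀ u v, G.Adj u v → c s(f u, f v) = b

/-- The Ramsey number `r(G,H)`. -/
noncomputable def ram {k l : ℕ} (G : SimpleGraph (Fin k)) (H : SimpleGraph (Fin l)) : ℕ :=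
  sInf {N | ∀ c : Sym2 (Fin N) → Bool, (∃ f, Copy G c true f) ∨ ∃ f, Copy H c false f}

/-- The red degree. -/
def deg {n : ℕ} (c : Sym2 (Fin n) → Bool) (v : Fin n) : ℕ :=
  (univ.filter (fun w => w ≠ v ∧ c s(v, w) = true)).card

/-- Maximum minus minimum red degree on `X`. -/
noncomputable def spread {n : ℕ} (c : Sym2 (Fin n) → Bool) (X : Finset (Fin n)) : ℕ :=
  sSup (deg c '' X) - sInf (deg c '' X)

def Admissible {k l n : ℕ} (G : SimpleGraph (Fin k)) (H : SimpleGraph (Fin l))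
    (c : Sym2 (Fin n) → Bool) (X : Finset (Fin n)) : Prop :=
  (∃ f, Copy G c true f ∧ X = univ.map f) ∨ ∃ f, Copy H c false f ∧ X = univ.map f

/-- `Φ_n(G,H)`: the largest, over colourings, of the least spread of an admissible set. -/
noncomputable def Phi {k l : ℕ} (G : SimpleGraph (Fin k)) (H : SimpleGraph (Fin l)) (n : ℕ) : ℕ :=
  univ.sup (fun c : Sym2 (Fin n) → Bool => sInf (spread c '' {X | Admissible G H c X}))

/-- Two disjoint edges. -/
def M2 : SimpleGraph (Fin 4) where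
  Adj a b := a ≠ b ∧ a.1 / 2 = b.1 / 2
  symm := ⟨fun _ _ h => ⟨h.1.symm, h.2.symm⟩⟩
  loopless := ⟨fun _ h => h.1 rfl⟩

instance : DecidableRel M2.Adj := fun a b => by unfold M2; infer_instance

theorem inj2 {α : Type} (a b : α) (h : a ≠ b) : Function.Injective ![a, b] := by
  intro x y e
  fin_cases x <;> fin_cases y <;> first | rfl | exact absurd e h | exact absurd e h.symm

theorem inj4 {α : Type} (a b c d : α) (h1 : a ≠ b) (h2 : a ≠ c) (h3 : b ≠ c) (h4 : a ≠ d)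
    (h5 : b ≠ d) (h6 : c ≠ d) : Function.Injective ![a, b, c, d] := by
  have := h1.symm
  have := h2.symm
  have := h3.symm
  have := h4.symm
  have := h5.symm
  have := h6.symm
  intro x y e
  fin_cases x <;> fin_cases y <;> first | rfl | exact absurd e (by assumption)

theorem copy2 {n : ℕ} (c : Sym2 (Fin n) → Bool) (a b : Fin n) (h : a ≠ b) (hc : c s(a, b) = true) :
    Copy (⊤ : SimpleGraph (Fin 2)) c true ⟨_, inj2 a b h⟩ := by
  intro x y e
  have hc' : c s(b, a) = true := by rw [Sym2.eq_swap]; exact hc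
  fin_cases x <;> fin_cases y <;> first | (exact absurd e (by decide)) | assumption

theorem ram_eq : ram (⊤ : SimpleGraph (Fin 2)) M2 = 4 := by
  have h4 : ∀ c : Sym2 (Fin 4) → Bool, (∃ f, Copy (⊤ : SimpleGraph (Fin 2)) c true f) ∨
      ∃ f, Copy M2 c false f := by
    intro c
    by_cases h : ∃ a b : Fin 4, a ≠ b ∧ c s(a, b) = true
    · obtain ⟨a, b, hab, h⟩ := h
      exact Or.inl ⟨_, copy2 c a b hab h⟩
    · push Not at h
      exact Or.inr ⟨Function.Embedding.refl _, fun u v e => by simpa using h u v e.1⟩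
  unfold ram
  apply le_antisymm (Nat.sInf_le (by exact h4))
  refine le_csInf ⟨4, h4⟩ (fun N hN => ?_)
  rcases hN (fun _ => false) with ⟨f, hf⟩ | ⟨f, _⟩
  · exact absurd (hf 0 1 (by decide)) (by simp)
  · simpa using Fintype.card_le_of_embedding f

def mm (b0 b1 b2 b3 b4 b5 b6 b7 b8 b9 : Bool) : Fin 5 → Fin 5 → Bool :=
  ![![false, b0, b1, b2, b3], ![b0, false, b4, b5, b6], ![b1, b4, false, b7, b8],
    ![b2, b5, b7, false, b9], ![b3, b6, b8, b9, false]]

def dm (m : Fin 5 → Fin 5 → Bool) (v : Fin 5) : ℕ :=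
  (m v 0).toNat + (m v 1).toNat + (m v 2).toNat + (m v 3).toNat + (m v 4).toNat

def Q (m : Fin 5 → Fin 5 → Bool) : Prop := ∃ w : Fin 5,
  (∃ a, dm m a - w.1 ≤ 1 ∧ w.1 ≤ dm m a ∧ ∃ b, dm m b - w.1 ≤ 1 ∧ w.1 ≤ dm m b ∧ m a b = true) ∨
  ∃ a, dm m a - w.1 ≤ 1 ∧ w.1 ≤ dm m a ∧ ∃ b, dm m b - w.1 ≤ 1 ∧ w.1 ≤ dm m b ∧ a ≠ b ∧
    m a b = false ∧ ∃ c, dm m c - w.1 ≤ 1 ∧ w.1 ≤ dm m c ∧ a ≠ c ∧ b ≠ c ∧
    ∃ d, dm m d - w.1 ≤ 1 ∧ w.1 ≤ dm m d ∧ a ≠ d ∧ b ≠ d ∧ c ≠ d ∧ m c d = false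

instance (m : Fin 5 → Fin 5 → Bool) : Decidable (Q m) := by unfold Q; infer_instance

theorem key : ∀ b0 b1 b2 b3 b4 b5 b6 b7 b8 b9 : Bool, Q (mm b0 b1 b2 b3 b4 b5 b6 b7 b8 b9) := by
  decide +kernel

theorem spread_le {n : ℕ} (c : Sym2 (Fin n) → Bool) (X : Finset (Fin n)) (w : ℕ)
    (hX : X.Nonempty) (h : ∀ v ∈ X, deg c v - w ≤ 1 ∧ w ≤ deg c v) : spread c X ≤ 1 := by
  have hne : (deg c '' X).Nonempty := by
    obtain ⟨x, hx⟩ := hX
    exact ⟨_, x, hx, rfl⟩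
  have h1 : sSup (deg c '' X) ≤ w + 1 := csSup_le hne (by
    rintro _ ⟨v, hv, rfl⟩
    have := h v hv
    omega)
  have h2 : w ≤ sInf (deg c '' X) := le_csInf hne (by
    rintro _ ⟨v, hv, rfl⟩
    exact (h v hv).2)
  unfold spread
  omega

theorem phi_le : Phi (⊤ : SimpleGraph (Fin 2)) M2 5 ≤ 1 := by
  refine Finset.sup_le (fun c _ => ?_)
  set m := mm (c s(0, 1)) (c s(0, 2)) (c s(0, 3)) (c s(0, 4)) (c s(1, 2)) (c s(1, 3)) (c s(1, 4))
    (c s(2, 3)) (c s(2, 4)) (c s(3, 4)) with hm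
  have h1 : ∀ a b : Fin 5, m a b = (decide (b ≠ a) && c s(a, b)) := by
    intro a b
    fin_cases a <;> fin_cases b <;> simp [hm, mm] <;> rw [Sym2.eq_swap]
  have h2 : ∀ v, dm m v = deg c v := by
    intro v
    unfold dm deg
    rw [card_filter, Fin.sum_univ_five]
    simp only [h1]
    have : ∀ (p : Prop) [Decidable p] (b : Bool),
        (decide p && b).toNat = if (p ∧ b = true) then 1 else 0 := by
      intro p _ b
      by_cases hp : p <;> cases b <;> simp [hp]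
    simp only [this]
  have fin : ∀ X, Admissible (⊤ : SimpleGraph (Fin 2)) M2 c X → spread c X ≤ 1 →
      sInf (spread c '' {X | Admissible (⊤ : SimpleGraph (Fin 2)) M2 c X}) ≤ 1 :=
    fun X h h' => (Nat.sInf_le (Set.mem_image_of_mem _ (by exact h))).trans h'
  have h3 : Q m := key _ _ _ _ _ _ _ _ _ _
  unfold Q at h3
  simp only [h2] at h3
  obtain ⟨w, ⟨a, a1, a2, b, b1, b2, hab⟩ |
    ⟨a, a1, a2, b, b1, b2, n1, hab, x, c1, c2, n2, n3, d, d1, d2, n4, n5, n6, hcd⟩⟩ := h3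
  · rw [h1, Bool.and_eq_true, decide_eq_true_eq] at hab
    have hi := inj2 a b hab.1.symm
    refine fin (univ.map ⟨_, hi⟩) (Or.inl ⟨⟨_, hi⟩, copy2 c a b hab.1.symm hab.2, rfl⟩)
      (spread_le c _ w.1 (by simp) ?_)
    intro v hv
    obtain ⟨i, _, rfl⟩ := mem_map.1 hv
    fin_cases i
    · exact ⟨a1, a2⟩
    · exact ⟨b1, b2⟩
  · rw [h1] at hab hcd
    have e1 : c s(a, b) = false := by simpa [n1.symm] using hab
    have e2 : c s(x, d) = false := by simpa [n6.symm] using hcd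
    have hi := inj4 a b x d n1 n2 n3 n4 n5 n6
    refine fin (univ.map ⟨_, hi⟩) (Or.inr ⟨⟨_, hi⟩, ?_, rfl⟩) (spread_le c _ w.1 (by simp) ?_)
    · intro i j e
      have e3 : c s(b, a) = false := by rw [Sym2.eq_swap]; exact e1
      have e4 : c s(d, x) = false := by rw [Sym2.eq_swap]; exact e2
      fin_cases i <;> fin_cases j <;> first | (exact absurd e (by decide)) | assumption
    · intro v hv
      obtain ⟨i, _, rfl⟩ := mem_map.1 hv
      fin_cases i
      · exact ⟨a1, a2⟩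
      · exact ⟨b1, b2⟩
      · exact ⟨c1, c2⟩
      · exact ⟨d1, d2⟩

theorem result : ∃ (k l : ℕ) (G : SimpleGraph (Fin k)) (H : SimpleGraph (Fin l)) (n : ℕ),
    (∀ v, ∃ w, G.Adj v w) ∧ (∀ v, ∃ w, H.Adj v w) ∧ G ≠ ⊥ ∧ H ≠ ⊥ ∧ ram G H ≤ n ∧
      Phi G H n < ram G H - 2 := by
  refine ⟨2, 4, ⊤, M2, 5, by decide, by decide, ?_, ?_, by rw [ram_eq]; norm_num, ?_⟩
  · intro h
    have : (⊤ : SimpleGraph (Fin 2)).Adj 0 1 := by decide
    rw [h] at this
    exact this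
  · intro h
    have : M2.Adj 0 1 := by decide
    rw [h] at this
    exact this
  · rw [ram_eq]
    exact lt_of_le_of_lt phi_le (by norm_num)

end Pool.Agent.Results.MP_f2857b_co.Spread
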